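import Pool.Agent.helper64.PB.SpecF

set_option autoImplicit false

namespace Pool.Agent.PB

open Finset Polynomial

theorem CRV_map {R R' : Type} [CommRing R] [CommRing R'] (f : R →+* R') (S : ℕ → R) (w : ℕ) (j : Fin (w + 1)) :
    f (hk S w j) = hk (fun m => f (S m)) w j := by
  unfold hk
  rw [map_mul, map_pow, map_neg, map_one, RingHom.map_det]
  rfl

theorem CRV_congr {R : Type} [CommRing R] (S S' : ℕ → R) (w : ℕ) (h : ∀ m, m ≤ 2 * w → S m = S' m)
    (j : Fin (w + 1)) : hk S w j = hk S' w j := by
  unfold hk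
  have e : (Matrix.of fun i l : Fin w => S ((i : ℕ) + (j.succAbove l : ℕ))) =
      (Matrix.of fun i l : Fin w => S' ((i : ℕ) + (j.succAbove l : ℕ))) := by
    ext i l
    simp only [Matrix.of_apply]
    apply h
    have h1 := i.isLt
    have h2 := (j.succAbove l).isLt
    omega
  rw [e]

theorem CRV (hHNK : HNK_stmt) (hDEG : DEG_stmt) : CRV_stmt := by
  intro K _ _ _ _ c J x hSP hJ
  classical
  obtain ⟨V, hVx, hodd, hpow⟩ := hSP
  -- the maximal column
  obtain ⟨α₀, -, hα₀⟩ := Finset.exists_max_image (univ : Finset K) (fun α => (col V α).card) ⟨0, mem_univ _⟩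
  have hcolJ : ∀ α, (col V α).card ≤ J := by
    intro α
    refine le_trans (Finset.card_le_card ?_) (hJ α)
    intro y hy
    unfold col at hy
    rw [mem_filter] at hy ⊢
    exact ⟨mem_univ _, hVx _ hy.2⟩
  set w := (col V α₀).card with hw
  have hw1 : 1 ≤ w := (hodd α₀).pos
  have hwJ : w ≤ J := hcolJ α₀
  -- the polynomials
  have hex : ∀ m, ∃ P : K[X], P.natDegree ≤ c * m ∧ (m ≤ 2 * J → ∀ α, P.eval α = ∑ y ∈ col V α, y ^ m) := by
    intro m
    rcases Nat.eq_zero_or_pos m with h0 | h0
    · subst h0
      refine ⟨1, by simp, ?_⟩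
      intro _ α
      have h2 : ((col V α).card : K) = 1 := by
        obtain ⟨k, hk⟩ := hodd α
        rw [hk]
        push_cast
        rw [CharTwo.two_eq_zero, zero_mul, zero_add]
      simp [h2]
    · by_cases hm : m ≤ 2 * J
      · obtain ⟨P, hP1, hP2⟩ := hpow m h0 hm
        exact ⟨P, hP1, fun _ α => (hP2 α).symm⟩
      · exact ⟨0, by simp, fun h => absurd h hm⟩
  choose S hSd hSe using hex
  have hev : ∀ (j : Fin (w + 1)) (α : K),
      (hk S w j).eval α = hk (fun m => ∑ y ∈ col V α, y ^ m) w j := by
    intro j α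
    have h1 := CRV_map (Polynomial.evalRingHom α) S w j
    rw [Polynomial.coe_evalRingHom] at h1
    rw [h1]
    apply CRV_congr
    intro m hm
    exact hSe m (by omega) α
  have hdeg : ∀ j : Fin (w + 1), (hk S w j).natDegree ≤ c * w ^ 2 :=
    hDEG K S c w (fun m _ => hSd m)
  refine ⟨w, hw1, hwJ, hk S w, hdeg, univ.filter (fun α => (hk S w (Fin.last w)).eval α ≠ 0), ?_, ?_⟩
  · have hne : hk S w (Fin.last w) ≠ 0 := by
      intro h0
      have h1 := ((hHNK K (col V α₀) w).2 hw.symm).1
      apply h1
      rw [← hev, h0, eval_zero]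
    have hle : (univ.filter (fun α => ¬ (hk S w (Fin.last w)).eval α ≠ 0)).card ≤ c * w ^ 2 := by
      refine le_trans ?_ (hdeg (Fin.last w))
      refine le_trans ?_ (Polynomial.card_roots' _)
      refine le_trans (Finset.card_le_card (t := (hk S w (Fin.last w)).roots.toFinset) ?_)
        (Multiset.toFinset_card_le _)
      intro α hα
      rw [mem_filter] at hα
      rw [Multiset.mem_toFinset, Polynomial.mem_roots hne]
      exact not_not.mp hα.2
    have hsum := Finset.card_filter_add_card_filter_not (s := (univ : Finset K))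
      (fun α => (hk S w (Fin.last w)).eval α ≠ 0)
    rw [Finset.card_univ] at hsum
    omega
  · intro α hα
    rw [mem_filter] at hα
    have hle : (col V α).card ≤ w := hα₀ α (mem_univ _)
    have hcard : (col V α).card = w := by
      by_contra hne
      have hlt : (col V α).card < w := lt_of_le_of_ne hle hne
      apply hα.2
      rw [hev]
      exact (hHNK K (col V α) w).1 hlt
    refine ⟨col V α, hcard, ?_, ?_⟩
    · intro y
      have h1 := ((hHNK K (col V α) w).2 hcard).2 y
      rw [← h1]
      have e : (∑ j : Fin (w + 1), (hk S w j).eval α * y ^ (j : ℕ)) =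
          ∑ j : Fin (w + 1), hk (fun m => ∑ y ∈ col V α, y ^ m) w j * y ^ (j : ℕ) :=
        Finset.sum_congr rfl (fun j _ => by rw [hev])
      rw [e]
    · intro y hy
      unfold col at hy
      rw [mem_filter] at hy
      exact hVx _ hy.2

end Pool.Agent.PB
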