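import Pool.Agent.helper64.PB.SpecC

set_option autoImplicit false

/-! # pb:ET0 (MP_069684_lc): linear simulation of the functions with f(0) = 0 -/

namespace Pool.Agent.PB

theorem ET0_mono (G : Set Gate) {n : ℕ} (f : BF n) (s s' : ℕ) (h : Size G f s) (hs : s ≤ s') :
    Size G f s' := by
  obtain ⟨l, h1, h2, h3⟩ := h
  exact ⟨l, h1, h2.trans hs, h3⟩

/-- renaming of variables -/
theorem ET0_ren (G : Set Gate) {m n : ℕ} (σ : Fin m → Fin n) (L : List (BF m)) (h : Prog G m L) :
    Prog G n (L.map fun u x => u fun i => x (σ i)) := by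
  induction h with
  | nil => exact Prog.nil
  | step l g a _ hg ha ih =>
    rw [List.map_cons]
    refine Prog.step _ g (fun i x => a i fun j => x (σ j)) ih hg ?_
    intro i
    rcases ha i with h1 | ⟨j, h1⟩
    · left
      exact List.mem_map.2 ⟨a i, h1, rfl⟩
    · right
      exact ⟨σ j, by rw [h1]⟩

theorem ET0_rename (G : Set Gate) {m n : ℕ} (σ : Fin m → Fin n) (F : BF m) (s : ℕ)
    (h : Size G F s) : Size G (fun x : Fin n → Bool => F fun i => x (σ i)) s := by
  obtain ⟨L, h1, h2, h3⟩ := h
  refine ⟨_, ET0_ren G σ L h1, by rw [List.length_map]; exact h2, ?_⟩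
  rcases h3 with h3 | ⟨j, h3⟩
  · left
    exact List.mem_map.2 ⟨F, h3, rfl⟩
  · right
    exact ⟨σ j, by rw [h3]⟩

/-- composition with two functions -/
def ET0_c2 {n : ℕ} (q : BF 2) (A B : BF n) : BF n := fun x => q ![A x, B x]

theorem ET0_incl (hCLP : CLP_stmt) (G : Set Gate) {n : ℕ} (q : BF 2) (A B : BF n)
    (hq : InCl G q) (hA : InCl G A) (hB : InCl G B) : InCl G (ET0_c2 q A B) := by
  have h := hCLP.2 G 2 n q ![A, B] hq (by
    intro i
    fin_cases i
    · exact hA
    · exact hB)
  have e : (fun x => q fun i => (![A, B] : Fin 2 → BF n) i x) = ET0_c2 q A B := by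
    funext x
    unfold ET0_c2
    congr 1
    funext i
    fin_cases i <;> rfl
  rw [e] at h
  exact h

theorem ET0 (hSIM : SIM_stmt) (hALO : ALO_stmt) (hAPP : APP_stmt) (hCLP : CLP_stmt) :
    ET0_stmt := by
  intro G q hOr hq q00 q10 q11
  obtain ⟨c1, hc1⟩ := hALO G hOr
  -- the constant 0
  have hz : InCl G (ET0_c2 q (fun y : Fin 1 → Bool => y 0) (fun y => y 0)) :=
    ET0_incl hCLP G q _ _ hq (hCLP.1 G 1 0) (hCLP.1 G 1 0)
  obtain ⟨s1, hs1⟩ := hz
  -- the functions for the shadows
  have hn : InCl G (ET0_c2 q (fun z : Fin 3 → Bool => z 1) (fun z => z 0)) :=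
    ET0_incl hCLP G q _ _ hq (hCLP.1 G 3 1) (hCLP.1 G 3 0)
  have ho : InCl G (ET0_c2 fOr (fun z : Fin 4 → Bool => z 0) (fun z => z 1)) :=
    ET0_incl hCLP G fOr _ _ hOr (hCLP.1 G 4 0) (hCLP.1 G 4 1)
  have ha : InCl G (ET0_c2 q (fun z : Fin 4 → Bool => z 2)
      (ET0_c2 fOr (ET0_c2 q (fun z : Fin 4 → Bool => z 2) (fun z => z 0))
        (ET0_c2 q (fun z : Fin 4 → Bool => z 2) (fun z => z 1)))) :=
    ET0_incl hCLP G q _ _ hq (hCLP.1 G 4 2)
      (ET0_incl hCLP G fOr _ _ hOr (ET0_incl hCLP G q _ _ hq (hCLP.1 G 4 2) (hCLP.1 G 4 0))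
        (ET0_incl hCLP G q _ _ hq (hCLP.1 G 4 2) (hCLP.1 G 4 1)))
  obtain ⟨sn, hsn⟩ := hn
  obtain ⟨so, hso⟩ := ho
  obtain ⟨sa, hsa⟩ := ha
  obtain ⟨c0, hc0⟩ : ∃ c0, c0 = max sa (max so sn) := ⟨_, rfl⟩
  refine ⟨c1 + s1 + c0, ?_⟩
  intro n hn1 f hf s hs
  obtain ⟨l1, p1, len1, av1⟩ := hc1 n hn1
  obtain ⟨l2, p2, len2, av2⟩ := ET0_rename G (fun _ : Fin 1 => (⟨0, hn1⟩ : Fin n)) _ s1 hs1
  have hzero : (fun x : Fin n → Bool => ET0_c2 q (fun y : Fin 1 → Bool => y 0) (fun y => y 0)
      fun _ : Fin 1 => x ⟨0, hn1⟩) = fC false n := by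
    funext x
    unfold ET0_c2 fC
    cases x ⟨0, hn1⟩
    · exact q00
    · exact q11
  rw [hzero] at av2
  have key := hSIM G n (fun u x => allOr n x && u x) (allOr n) (fC false n) (l1 ++ l2) c0
    _ _ _ (hAPP G n l1 l2 p1 p2)
    (by
      rcases av1 with h | h
      · exact Or.inl (List.mem_append_left _ h)
      · exact Or.inr h)
    (by
      rcases av2 with h | h
      · exact Or.inl (List.mem_append_right _ h)
      · exact Or.inr h)
    (by
      intro j
      right
      refine ⟨j, ?_⟩
      funext x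
      show (allOr n x && x j) = x j
      cases hx : x j
      · exact Bool.and_false _
      · rw [Bool.and_true]
        exact decide_eq_true ⟨j, hx⟩)
    (by
      intro v
      cases v
      · have e : (fun x => allOr n x && fC false n x) = fC false n := by
          funext x; unfold fC; exact Bool.and_false _
        rw [e]
        rcases av2 with h | h
        · exact Or.inl (List.mem_append_right _ h)
        · exact Or.inr h
      · have e : (fun x => allOr n x && fC true n x) = allOr n := by
          funext x; unfold fC; exact Bool.and_true _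
        rw [e]
        rcases av1 with h | h
        · exact Or.inl (List.mem_append_left _ h)
        · exact Or.inr h)
    (ET0_mono G _ _ _ hsa (by rw [hc0]; exact le_max_left _ _))
    (ET0_mono G _ _ _ hso (by rw [hc0]; exact (le_max_left _ _).trans (le_max_right _ _)))
    (ET0_mono G _ _ _ hsn (by rw [hc0]; exact (le_max_right _ _).trans (le_max_right _ _)))
    (by
      intro u v
      funext x
      show (allOr n x && (u x && v x)) = q ![allOr n x, fOr ![q ![allOr n x, allOr n x && u x],
        q ![allOr n x, allOr n x && v x]]]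
      unfold fOr
      cases allOr n x <;> cases u x <;> cases v x <;> simp [q00, q10, q11])
    (by
      intro u v
      funext x
      show (allOr n x && (u x || v x)) = fOr ![allOr n x && u x, allOr n x && v x]
      unfold fOr
      cases allOr n x <;> cases u x <;> cases v x <;> simp)
    (by
      intro u
      funext x
      show (allOr n x && !(u x)) = q ![allOr n x, allOr n x && u x]
      cases allOr n x <;> cases u x <;> simp [q00, q10, q11])
    f s hs
  have hS : (fun x => allOr n x && f x) = f := by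
    funext x
    unfold allOr
    by_cases hx : ∃ i, x i = true
    · rw [decide_eq_true hx, Bool.true_and]
    · have e : x = fun _ => false := by
        funext i
        cases hxi : x i
        · rfl
        · exact absurd ⟨i, hxi⟩ hx
      rw [e, hf, Bool.and_false]
  have key2 : Size G f ((l1 ++ l2).length + c0 * s) := by
    rw [← hS]; exact key
  refine ET0_mono G f _ _ key2 ?_
  rw [List.length_append]
  have e1 : c1 * n ≤ c1 * (s + n) := Nat.mul_le_mul_left _ (by omega)
  have e2 : s1 * 1 ≤ s1 * (s + n) := Nat.mul_le_mul_left _ (by omega)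
  have e3 : c0 * s ≤ c0 * (s + n) := Nat.mul_le_mul_left _ (by omega)
  have e4 : (c1 + s1 + c0) * (s + n) = c1 * (s + n) + s1 * (s + n) + c0 * (s + n) := by ring
  rw [e4]
  omega

end Pool.Agent.PB
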